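import Pool.Agent.W_MP_52e7c8_nt.Final

namespace Pool.Agent.Results.MP_52e7c8_nt.NoWeakDarboux

/-- `k · X + h = {k x + h : x ∈ X}`. -/
def aff (k h : ℤ) (X : Set ℤ) : Set ℤ := (fun x => k * x + h) '' X

/-- `μ` (of which only the values on subsets of `H` matter) is an upper quasi-density on
`H ⊆ ℤ`: (F1), (F3), (F4♭) and `μ ≤ 1`. -/
structure IsUpperQuasiDensity (H : Set ℤ) (μ : Set ℤ → ℝ) : Prop where
  total : μ H = 1
  subadd : ∀ X Y, X ⊆ H → Y ⊆ H → μ (X ∪ Y) ≤ μ X + μ Y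
  affine : ∀ X, X ⊆ H → ∀ h k : ℕ, 1 ≤ h → 1 ≤ k → μ (aff k h X) = (1 / k) * μ X
  le_one : ∀ X, X ⊆ H → μ X ≤ 1

/-- `μ` is monotone on the subsets of `H`. -/
def IsMonotoneOn (H : Set ℤ) (μ : Set ℤ → ℝ) : Prop :=
  ∀ X Y, X ⊆ Y → Y ⊆ H → μ X ≤ μ Y

/-- The domain of the quasi-density induced by `μ`: all `X ⊆ H` with `μ(X) + μ(H \ X) = 1`. -/
def dom (H : Set ℤ) (μ : Set ℤ → ℝ) : Set (Set ℤ) := {X | X ⊆ H ∧ μ X + μ (H \ X) = 1}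

/-- The weak Darboux property of the quasi-density induced by `μ`. -/
def WeakDarboux (H : Set ℤ) (μ : Set ℤ → ℝ) : Prop :=
  ∀ X ∈ dom H μ, ∀ a : ℝ, 0 ≤ a → a ≤ μ X → ∃ Y ∈ dom H μ, Y ⊆ X ∧ μ Y = a

/-- On each of `ℤ`, `ℕ = {0,1,...}` and `ℕ⁺ = {1,2,...}` there is an upper quasi-density, which is
even monotone, whose induced quasi-density fails the weak Darboux property: there is a set `X` in
its domain with `μ(X) = 1/2` such that every `Y ⊆ X` in its domain has `μ(Y) = 0` or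
`μ(Y) = 1/2`. -/
theorem result (H : Set ℤ) (hH : H = Set.univ ∨ H = {n | 0 ≤ n} ∨ H = {n | 1 ≤ n}) :
    ∃ μ : Set ℤ → ℝ, IsUpperQuasiDensity H μ ∧ IsMonotoneOn H μ ∧ ¬ WeakDarboux H μ ∧
      ∃ X ∈ dom H μ, μ X = 1 / 2 ∧ ∀ Y ∈ dom H μ, Y ⊆ X → μ Y = 0 ∨ μ Y = 1 / 2 := by
  open Pool.Agent.W_MP_52e7c8_nt in
  have hG : GoodSet H := by
    rcases hH with h | h | h
    · rw [h]; exact goodSet_univ
    · rw [h]; exact goodSet_ge 0 le_rfl (by norm_num)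
    · rw [h]; exact goodSet_ge 1 (by norm_num) le_rfl
  obtain ⟨s, hs, hg⟩ := Pool.Agent.W_MP_52e7c8_nt.exists_generic
  have hX := Pool.Agent.W_MP_52e7c8_nt.mu_plus hG hs hg
  have hmem : Pool.Agent.W_MP_52e7c8_nt.plusSet H s ∈
      dom H (Pool.Agent.W_MP_52e7c8_nt.mu H s) :=
    ⟨fun n hn => hn.1, by rw [hX.1, hX.2]; norm_num⟩
  have hmain : ∀ Y ∈ dom H (Pool.Agent.W_MP_52e7c8_nt.mu H s),
      Y ⊆ Pool.Agent.W_MP_52e7c8_nt.plusSet H s →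
      Pool.Agent.W_MP_52e7c8_nt.mu H s Y = 0 ∨ Pool.Agent.W_MP_52e7c8_nt.mu H s Y = 1 / 2 :=
    fun Y hY hYX => Pool.Agent.W_MP_52e7c8_nt.mu_zero_or_half hG hs hg hYX hY.2
  refine ⟨Pool.Agent.W_MP_52e7c8_nt.mu H s, ⟨?_, ?_, ?_, ?_⟩, ?_, ?_,
    Pool.Agent.W_MP_52e7c8_nt.plusSet H s, hmem, hX.1, hmain⟩
  · exact Pool.Agent.W_MP_52e7c8_nt.mu_univ hG hg
  · exact fun X Y _ _ => Pool.Agent.W_MP_52e7c8_nt.mu_union_le hG hg X Y
  · intro X _ h k hh hk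
    have h1 := Pool.Agent.W_MP_52e7c8_nt.mu_aff hG hs hg ⟨k, hk⟩ (h := (h : ℤ))
      (by exact_mod_cast hh) X
    rw [one_div, inv_mul_eq_div]
    exact h1
  · exact fun X _ => Pool.Agent.W_MP_52e7c8_nt.mu_le_one hG hg X
  · exact fun X Y hXY _ => Pool.Agent.W_MP_52e7c8_nt.mu_mono hG hg hXY
  · intro hWD
    obtain ⟨Y, hY, hYX, hYa⟩ := hWD _ hmem (1 / 4) (by norm_num) (by rw [hX.1]; norm_num)
    rcases hmain Y hY hYX with h | h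
    · rw [h] at hYa; norm_num at hYa
    · rw [h] at hYa; norm_num at hYa

end Pool.Agent.Results.MP_52e7c8_nt.NoWeakDarboux
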